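import Mathlib
import Pool.Agent.H42.Meta1

open Pool.Agent.H42.MetaDefs

universe u

/-- For every infinite cardinal `κ` the `<κ`-box power of `κ⁺` copies of `κ` is not metanormal. -/
theorem Pool.Agent.Results.MP_4cb3df_gt.Yes.result (κ : Cardinal.{u})
    (hκ : Cardinal.aleph0 ≤ κ) : ¬ Metanormal (Box κ) :=
  Pool.Agent.H42.Meta1.main κ hκ
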